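import Pool.Agent.H38.O1.N3

set_option autoImplicit false

/-!
End of the noncommutative case for simple automorphic loops: if `th(a, b)` fixes `b` for all `a`, `b`,
then `x ↦ T_x` is multiplicative, so a noncommutative simple loop is a group.
-/

namespace ALoop

open Equiv

variable {Q : Type*} {G : Subgroup (Perm Q)} {L : Q → Perm Q} {J : Perm Q} {e : Q}

/-- `a(x, y) = L_(x y)⁻¹ L_x L_y` -/
def Aa (L : Q → Perm Q) (x y : Q) : Perm Q := (L (L x y))⁻¹ * L x * L y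

namespace AL0

theorem Aa_mem (h : AL0 G L J e) (x y : Q) : Aa L x y ∈ G :=
  G.mul_mem (G.mul_mem (G.inv_mem (h.memL _)) (h.memL _)) (h.memL _)

theorem Aa_e (h : AL0 G L J e) (x y : Q) : Aa L x y e = e := by
  unfold Aa
  simp only [Perm.mul_apply]
  rw [h.Le, Perm.inv_eq_iff_eq, h.Le]

theorem Aa_l (h : AL0 G L J e) (x y : Q) : Aa L x y x = x := by
  unfold Aa
  simp only [Perm.mul_apply]
  rw [h.flex', Perm.inv_eq_iff_eq]

theorem LL_eq (_h : AL0 G L J e) (x y : Q) : L x * L y = L (L x y) * Aa L x y := by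
  unfold Aa; group

theorem k7_a (h : AL0 G L J e) (hK : ∀ a b, Th L J a b b = b) (a b : Q) :
    Th L J a b a = a := by
  have h1 := hK (J b) (J a)
  rw [h.Th_inv] at h1
  have h2 : Th L J a b (J a) = J a := by
    have h3 := congrArg (Th L J a b) h1
    rw [apply_inv'] at h3
    exact h3.symm
  have h4 := h.fixJ (h.Th_mem a b) (h.Th_e a b) h2
  rwa [h.JJ] at h4

theorem LR_eq (_h : AL0 G L J e) (a b : Q) :
    L a * Rt L J b = Rt L J b * L a * Th L J a b := by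
  unfold Th; group

theorem k7_ip (h : AL0 G L J e) (hK : ∀ a b, Th L J a b b = b) (b : Q) :
    Rt L J b * Rt L J (J b) = 1 := by
  obtain ⟨w, hw⟩ : ∃ w, w = Rt L J b * Rt L J (J b) := ⟨_, rfl⟩
  have hwG : w ∈ G := by rw [hw]; exact G.mul_mem (h.memR _) (h.memR _)
  have hwe : w e = e := by
    rw [hw, Perm.mul_apply, h.Rt_e, h.Rt_app, h.JL]
  have key : ∀ a, w * L a = L a * w := by
    intro a
    have hb := hK a b
    have hT : Tx L J b * Th L J a b = Th L J a b * Tx L J b :=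
      h.Tx_cen b _ (h.Th_mem a b) (h.Th_e a b) hb
    have hK1 := h.K1 a b
    rw [← hT] at hK1
    have h1 : (Th L J a (J b))⁻¹ = Th L J a b := mul_left_cancel hK1
    have e1 : Rt L J b * L a = L a * Rt L J b * (Th L J a b)⁻¹ := by
      rw [h.LR_eq a b]; group
    have e2 : Rt L J (J b) * L a = L a * Rt L J (J b) * Th L J a b := by
      rw [← h1, h.LR_eq a (J b)]; group
    have e3 : Th L J a b * Rt L J (J b) = Rt L J (J b) * Th L J a b :=
      h.comR (h.Th_mem a b) (h.Th_e a b) (h.fixJ (h.Th_mem a b) (h.Th_e a b) hb)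
    have e4 : (Th L J a b)⁻¹ * Rt L J (J b) * Th L J a b = Rt L J (J b) := by
      rw [mul_assoc, ← e3]; group
    rw [hw]
    calc Rt L J b * Rt L J (J b) * L a = Rt L J b * (Rt L J (J b) * L a) := by group
      _ = (Rt L J b * L a) * Rt L J (J b) * Th L J a b := by rw [e2]; group
      _ = L a * Rt L J b * ((Th L J a b)⁻¹ * Rt L J (J b) * Th L J a b) := by rw [e1]; group
      _ = L a * (Rt L J b * Rt L J (J b)) := by rw [e4]; group
  rw [← hw]
  ext a
  have h1 := h.equi w hwG hwe a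
  rw [key a] at h1
  have h2 : L a = L (w a) := by rw [← h1]; group
  have h3 := congrArg (fun p : Perm Q => p e) h2
  simp only [h.Le] at h3
  rw [Perm.one_apply]; exact h3.symm

theorem ipR (h : AL0 G L J e) (hK : ∀ a b, Th L J a b b = b) (b : Q) :
    Rt L J (J b) = (Rt L J b)⁻¹ :=
  (inv_eq_of_mul_eq_one_right (h.k7_ip hK b)).symm

theorem ipL (h : AL0 G L J e) (hK : ∀ a b, Th L J a b b = b) (b : Q) :
    L (J b) = (L b)⁻¹ := by
  rw [← h.JRJ b]
  have h1 : L b = J * Rt L J (J b) * J := by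
    have := h.JRJ (J b)
    rw [h.JJ] at this
    exact this.symm
  rw [h1, h.ipR hK, mul_inv_rev, mul_inv_rev, inv_inv, h.Jinv]; group

theorem Aa_r (h : AL0 G L J e) (hK : ∀ a b, Th L J a b b = b) (x y : Q) :
    Aa L x y y = y := by
  have h1 := hK x y
  unfold Th at h1
  simp only [Perm.mul_apply] at h1
  rw [Perm.inv_eq_iff_eq, Perm.inv_eq_iff_eq, h.Rt_app, h.Rt_app] at h1
  unfold Aa
  simp only [Perm.mul_apply]
  rw [Perm.inv_eq_iff_eq, h1]

theorem Aa_R (h : AL0 G L J e) (hK : ∀ a b, Th L J a b b = b) (x y : Q) :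
    Rt L J (L x y) = Aa L x y * (Rt L J y * Rt L J x) := by
  have hJL : ∀ z, J * (L z)⁻¹ = Rt L J z * J := by
    intro z
    have h1 : J * (L z)⁻¹ * J = Rt L J z := by
      have h2 := h.JLJ z
      rw [h.ipR hK] at h2
      have h3 : (J * L z * J)⁻¹ = Rt L J z := by rw [h2, inv_inv]
      rw [mul_inv_rev, mul_inv_rev, h.Jinv] at h3
      rw [← h3]; group
    calc J * (L z)⁻¹ = J * (L z)⁻¹ * 1 := by group
      _ = (J * (L z)⁻¹ * J) * J := by rw [← h.JJ1]; group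
      _ = Rt L J z * J := by rw [h1]
  have hA := h.comJ _ (h.Aa_mem x y) (h.Aa_e x y)
  have hL := h.LL_eq x y
  have h1 : L (L x y) * (J * (L (L x y))⁻¹) = L x * (L y * (J * (L y)⁻¹)) * (L x)⁻¹ := by
    have h2 : L (L x y) = L x * L y * (Aa L x y)⁻¹ := by rw [hL]; group
    rw [h2]
    calc L x * L y * (Aa L x y)⁻¹ * (J * (L x * L y * (Aa L x y)⁻¹)⁻¹) =
        L x * L y * (Aa L x y)⁻¹ * (J * Aa L x y) * (L y)⁻¹ * (L x)⁻¹ := by group
      _ = L x * (L y * (J * (L y)⁻¹)) * (L x)⁻¹ := by rw [← hA]; group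
  rw [hJL, hJL] at h1
  have h3 : L (L x y) * Rt L J (L x y) * J = L x * L y * Rt L J y * Rt L J x * J := by
    calc L (L x y) * Rt L J (L x y) * J = L (L x y) * (Rt L J (L x y) * J) := by group
      _ = L x * L y * Rt L J y * (J * (L x)⁻¹) := by rw [h1]; group
      _ = _ := by rw [hJL]; group
  have h4 := mul_right_cancel h3
  rw [hL] at h4
  have h5 : L (L x y) * Rt L J (L x y) = L (L x y) * (Aa L x y * (Rt L J y * Rt L J x)) := by
    rw [h4]; group
  exact mul_left_cancel h5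

/-- `th(y, x) = a(x, y)⁻¹ a(y, x)` -/
theorem Th_Aa (h : AL0 G L J e) (hK : ∀ a b, Th L J a b b = b) (x y : Q) :
    Th L J y x = (Aa L x y)⁻¹ * Aa L y x := by
  have h1 : Tx L J x (L y x) = L x y := by
    unfold Tx
    rw [Perm.mul_apply, ← h.Rt_app x y, inv_apply']
  have h2 := h.equi _ (h.Tx_mem x) (h.Tx_e x) (L y x)
  rw [h1] at h2
  have hB : Tx L J x * Aa L y x = Aa L y x * Tx L J x :=
    h.Tx_cen x _ (h.Aa_mem y x) (h.Aa_e y x) (h.Aa_r hK y x)
  have hT := h.Tx_L x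
  have e1 : L (L x y) = L x * L y * (Aa L x y)⁻¹ := by rw [h.LL_eq x y]; group
  have e2 : L (L y x) = L y * L x * (Aa L y x)⁻¹ := by rw [h.LL_eq y x]; group
  rw [e1, e2] at h2
  have e3 : (Aa L y x)⁻¹ * (Tx L J x)⁻¹ = (Tx L J x)⁻¹ * (Aa L y x)⁻¹ := by
    rw [← mul_inv_rev, ← mul_inv_rev, hB]
  have e4 : L x * (Tx L J x)⁻¹ = (Tx L J x)⁻¹ * L x := by
    rw [mul_inv_eq_iff_eq_mul, mul_assoc, ← hT]; group
  have h3 : L x * ((Rt L J x)⁻¹ * L y * Rt L J x * (Aa L y x)⁻¹) = L x * (L y * (Aa L x y)⁻¹) := by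
    calc L x * ((Rt L J x)⁻¹ * L y * Rt L J x * (Aa L y x)⁻¹) =
        (L x * (Rt L J x)⁻¹) * L y * (L x * (Rt L J x)⁻¹)⁻¹ * L x * (Aa L y x)⁻¹ := by group
      _ = Tx L J x * L y * ((Tx L J x)⁻¹ * L x) * (Aa L y x)⁻¹ := by
          change Tx L J x * L y * (Tx L J x)⁻¹ * L x * (Aa L y x)⁻¹ = _
          group
      _ = Tx L J x * L y * L x * ((Tx L J x)⁻¹ * (Aa L y x)⁻¹) := by rw [← e4]; group
      _ = Tx L J x * (L y * L x * (Aa L y x)⁻¹) * (Tx L J x)⁻¹ := by rw [← e3]; group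
      _ = L x * L y * (Aa L x y)⁻¹ := h2
      _ = _ := by group
  have h4 := mul_left_cancel h3
  unfold Th
  calc (L y)⁻¹ * (Rt L J x)⁻¹ * L y * Rt L J x =
      (L y)⁻¹ * ((Rt L J x)⁻¹ * L y * Rt L J x * (Aa L y x)⁻¹) * Aa L y x := by group
    _ = _ := by rw [h4]; group

theorem Tx_eq' (h : AL0 G L J e) (x : Q) : Tx L J x = (Rt L J x)⁻¹ * L x := by
  unfold Tx
  rw [mul_inv_eq_iff_eq_mul, mul_assoc, h.flex x]; group

theorem Tx_inv' (h : AL0 G L J e) (x : Q) : (Tx L J x)⁻¹ = (L x)⁻¹ * Rt L J x := by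
  rw [h.Tx_eq' x]; group

/-- `T_x T_y = T_(x y) a(x, y) a(y, x)` -/
theorem T_mul (h : AL0 G L J e) (hK : ∀ a b, Th L J a b b = b) (x y : Q) :
    Tx L J x * Tx L J y = Tx L J (L x y) * (Aa L x y * Aa L y x) := by
  have ht := h.Th_Aa hK y x
  have hty : Th L J x y * Rt L J y = Rt L J y * Th L J x y :=
    h.comR (h.Th_mem x y) (h.Th_e x y) (hK x y)
  have htl : Th L J x y * L y = L y * Th L J x y := h.comL (h.Th_mem x y) (h.Th_e x y) (hK x y)
  have hLR := h.LR_eq x y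
  have hAxy : Aa L x y (L x y) = L x y := by
    rw [h.aut (h.Aa_mem x y) (h.Aa_e x y), h.Aa_l, h.Aa_r hK]
  have hAL : Aa L x y * L (L x y) = L (L x y) * Aa L x y :=
    h.comL (h.Aa_mem x y) (h.Aa_e x y) hAxy
  have e1 : L x * (Rt L J y)⁻¹ = (Rt L J y)⁻¹ * L x * (Th L J x y)⁻¹ := by
    have : Rt L J y * (L x * (Rt L J y)⁻¹) = Rt L J y * ((Rt L J y)⁻¹ * L x * (Th L J x y)⁻¹) := by
      calc Rt L J y * (L x * (Rt L J y)⁻¹) =
          (Rt L J y * L x * Th L J x y) * (Th L J x y)⁻¹ * (Rt L J y)⁻¹ := by group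
        _ = L x * Rt L J y * (Rt L J y * Th L J x y)⁻¹ := by rw [← hLR]; group
        _ = L x * Rt L J y * (Th L J x y * Rt L J y)⁻¹ := by rw [hty]
        _ = _ := by group
    exact mul_left_cancel this
  have e2 : (Th L J x y)⁻¹ * L y = L y * (Th L J x y)⁻¹ := by
    rw [inv_mul_eq_iff_eq_mul, ← mul_assoc, htl]; group
  have e3 : (Rt L J x)⁻¹ * (Rt L J y)⁻¹ = (Rt L J (L x y))⁻¹ * Aa L x y := by
    rw [h.Aa_R hK]; group
  calc Tx L J x * Tx L J y = ((Rt L J x)⁻¹ * L x) * ((Rt L J y)⁻¹ * L y) := by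
        rw [h.Tx_eq' x, h.Tx_eq' y]
    _ = (Rt L J x)⁻¹ * (L x * (Rt L J y)⁻¹) * L y := by group
    _ = (Rt L J x)⁻¹ * (Rt L J y)⁻¹ * L x * ((Th L J x y)⁻¹ * L y) := by rw [e1]; group
    _ = ((Rt L J x)⁻¹ * (Rt L J y)⁻¹) * (L x * L y) * (Th L J x y)⁻¹ := by rw [e2]; group
    _ = (Rt L J (L x y))⁻¹ * (Aa L x y * L (L x y)) * Aa L x y * (Th L J x y)⁻¹ := by
        rw [e3, h.LL_eq x y]; group
    _ = ((Rt L J (L x y))⁻¹ * L (L x y)) * (Aa L x y * Aa L x y * (Th L J x y)⁻¹) := by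
        rw [hAL]; group
    _ = _ := by rw [ht, h.Tx_eq' (L x y)]; group

/-- the inverse of a commutator -/
theorem comm_inv (h : AL0 G L J e) (hK : ∀ a b, Th L J a b b = b) (u x : Q) :
    J ((L x)⁻¹ (Tx L J u x)) = (L (J u))⁻¹ (Tx L J (J x) (J u)) := by
  obtain ⟨s, hs⟩ : ∃ s, s = (L x)⁻¹ (Tx L J u x) := ⟨_, rfl⟩
  have h3 : Nsp L s x := by rw [hs]; exact h.N3 u x
  have hxs : L x s = Tx L J u x := by rw [hs, apply_inv']
  have h1 : L x (L s u) = L u x := by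
    have h4 : L x * L s = L (L x s) := h3
    have h5 := congrArg (fun p : Perm Q => p u) h4
    simp only [Perm.mul_apply] at h5
    rw [h5, hxs, ← h.Rt_app u (Tx L J u x), h.Tx_eq' u, Perm.mul_apply, apply_inv']
  have h2 : L s u = (Tx L J x)⁻¹ u := by
    rw [h.Tx_inv', Perm.mul_apply, h.Rt_app, ← h1, inv_apply']
  have h6 : s = L ((Tx L J x)⁻¹ u) (J u) := by
    rw [← h2, ← h.Rt_app (J u) (L s u), ← h.Rt_app u s, h.ipR hK, inv_apply']
  have h7 : J ((Tx L J x)⁻¹ u) = (Tx L J x)⁻¹ (J u) := by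
    have h8 := h.comJ _ (G.inv_mem (h.Tx_mem x))
      (show (Tx L J x)⁻¹ e = e by rw [Perm.inv_eq_iff_eq, h.Tx_e])
    have h9 := congrArg (fun p : Perm Q => p u) h8
    simp only [Perm.mul_apply] at h9
    exact h9.symm
  rw [← hs]
  conv_lhs => rw [h6]
  rw [h.aaip, h7, h.Tx_inv, h.ipL hK u]
  rw [h.JJ, inv_inv]

/-- commutators commute with the translations by their letters -/
theorem good (h : AL0 G L J e) (hK : ∀ a b, Th L J a b b = b) {s v : Q}
    (h1 : Nsp L s v) (h2 : Nsp L (J s) v) :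
    L v * Rt L J s = Rt L J s * L v ∧ Rt L J (L v s) = Rt L J s * Rt L J v := by
  have a1 : Aa L v s = 1 := by
    unfold Aa
    rw [mul_assoc, show L v * L s = L (L v s) from h1]; group
  have h3 := h.Nsp_inv h2
  have h4 : L s * L v = L (L s v) := by
    have h5 : L (J v) * L (J s) = L (L (J v) (J s)) := h3
    rw [← h.aaip, h.ipL hK, h.ipL hK, h.ipL hK, ← mul_inv_rev, inv_inj] at h5
    exact h5
  have a2 : Aa L s v = 1 := by
    unfold Aa
    rw [mul_assoc, h4]; group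
  constructor
  · have h5 := h.Th_Aa hK s v
    rw [a1, a2] at h5
    rw [h.LR_eq v s, h5]; group
  · rw [h.Aa_R hK, a1, one_mul]

theorem good_l (h : AL0 G L J e) (hK : ∀ a b, Th L J a b b = b) (u x : Q) :
    L u * Rt L J ((L x)⁻¹ (Tx L J u x)) = Rt L J ((L x)⁻¹ (Tx L J u x)) * L u ∧
    Rt L J (L u ((L x)⁻¹ (Tx L J u x))) = Rt L J ((L x)⁻¹ (Tx L J u x)) * Rt L J u := by
  apply h.good hK (h.N4 u x)
  rw [h.comm_inv hK]
  have := h.Nsp_inv (h.N3 (J x) (J u))
  rwa [h.JJ] at this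

theorem good_r (h : AL0 G L J e) (hK : ∀ a b, Th L J a b b = b) (u x : Q) :
    L x * Rt L J ((L x)⁻¹ (Tx L J u x)) = Rt L J ((L x)⁻¹ (Tx L J u x)) * L x ∧
    Rt L J (L x ((L x)⁻¹ (Tx L J u x))) = Rt L J ((L x)⁻¹ (Tx L J u x)) * Rt L J x := by
  apply h.good hK (h.N3 u x)
  rw [h.comm_inv hK]
  have := h.Nsp_inv (h.N4 (J x) (J u))
  rwa [h.JJ] at this

/-- `a(x, y) a(y, x) = 1` -/
theorem Aa_sym (h : AL0 G L J e) (hK : ∀ a b, Th L J a b b = b) (x y : Q) :
    Aa L x y * Aa L y x = 1 := by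
  suffices hh : ∀ q, Aa L x y q = (Aa L y x)⁻¹ q by
    have : Aa L x y = (Aa L y x)⁻¹ := by ext q; exact hh q
    rw [this]; group
  intro q
  obtain ⟨A, hA⟩ : ∃ A, A = Aa L x y := ⟨_, rfl⟩
  obtain ⟨B, hB⟩ : ∃ B, B = Aa L y x := ⟨_, rfl⟩
  have hAG : A ∈ G := by rw [hA]; exact h.Aa_mem x y
  have hAe : A e = e := by rw [hA]; exact h.Aa_e x y
  have hAx : A x = x := by rw [hA]; exact h.Aa_l x y
  have hAy : A y = y := by rw [hA]; exact h.Aa_r hK x y
  obtain ⟨X, hX⟩ : ∃ X, X = Th L J q y x := ⟨_, rfl⟩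
  -- (E4)
  have hAR : A * Rt L J y = Rt L J y * A := h.comR hAG hAe hAy
  have E4 : L q X = L (A q) x := by
    have h1 : L q X = (Rt L J y)⁻¹ (L q (L x y)) := by
      rw [hX]; unfold Th
      simp only [Perm.mul_apply]
      rw [apply_inv', h.Rt_app]
    rw [h1, ← h.Rt_app (L x y) q, h.Aa_R hK, ← hA, Perm.mul_apply, Perm.mul_apply]
    have h2 := congrArg (fun p : Perm Q => p (Rt L J x q)) hAR
    simp only [Perm.mul_apply] at h2
    rw [h2, inv_apply', h.Rt_app, h.aut hAG hAe, hAx]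
  -- (E5)
  have hth : Th L J q y = (Th L J y q)⁻¹ := by
    rw [h.Th_Aa hK y q, h.Th_Aa hK q y]; group
  have E5 : L X q = L x (B⁻¹ q) := by
    rw [← h.Rt_app q X, hX, hth]
    have h1 : Rt L J q ((Th L J y q)⁻¹ x) = (L y)⁻¹ (L (L y x) q) := by
      have h2 : Rt L J q * (Th L J y q)⁻¹ = (L y)⁻¹ * Rt L J q * L y := by unfold Th; group
      have h3 := congrArg (fun p : Perm Q => p x) h2
      simp only [Perm.mul_apply] at h3
      rw [h3, h.Rt_app]
    have h4 : L (L y x) = L y * L x * B⁻¹ := by rw [h.LL_eq y x, hB]; group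
    rw [h1, h4]
    simp only [Perm.mul_apply]
    rw [inv_apply']
  -- the commutator `n`
  obtain ⟨n, hn⟩ : ∃ n, n = (L x)⁻¹ (Tx L J q x) := ⟨_, rfl⟩
  have hxn : L x n = Tx L J q x := by rw [hn, apply_inv']
  have gn1 := h.good_l hK q x
  have gn2 := h.good_r hK q x
  rw [← hn] at gn1 gn2
  have hNn : Nsp L n q := by rw [hn]; exact h.N4 q x
  have hthn : Th L J q y n = n := by
    unfold Th
    simp only [Perm.mul_apply]
    rw [h.Rt_app, Perm.inv_eq_iff_eq, Perm.inv_eq_iff_eq, h.Rt_app,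
      ← (show L q * L n = L (L q n) from hNn), Perm.mul_apply]
  have hTX : Tx L J q X = L X n := by
    have h1 := h.Tx_cen q _ (h.Th_mem q y) (h.Th_e q y) (h.k7_a hK q y)
    have h2 := congrArg (fun p : Perm Q => p x) h1
    simp only [Perm.mul_apply] at h2
    rw [hX, h2, ← hxn, h.aut (h.Th_mem q y) (h.Th_e q y), hthn]
  -- (i) `A q` commutes with `q`
  have hi : Tx L J q (A q) = A q := by
    have h1 : Tx L J q (L (A q) x) = Rt L J (L x n) (A q) := by
      rw [← E4, h.aut (h.Tx_mem q) (h.Tx_e q), h.Tx_x, hTX]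
      have h2 := congrArg (fun p : Perm Q => p X) gn1.1
      simp only [Perm.mul_apply] at h2
      rw [h.Rt_app] at h2
      rw [h2, E4, gn2.2, Perm.mul_apply, h.Rt_app x (A q)]
    rw [h.aut (h.Tx_mem q) (h.Tx_e q), ← hxn, ← h.Rt_app (L x n)] at h1
    exact (Rt L J (L x n)).injective h1
  -- the commutators `m` and `k`
  obtain ⟨m, hm⟩ : ∃ m, m = (L x)⁻¹ (Tx L J (J q) x) := ⟨_, rfl⟩
  obtain ⟨k, hk⟩ : ∃ k, k = (L q)⁻¹ (Tx L J (J x) q) := ⟨_, rfl⟩
  have hmk : m = J k := by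
    rw [hk, h.comm_inv hK, h.JJ, hm]
  have gm := h.good_r hK (J q) x
  rw [← hm] at gm
  have gk := h.good_l hK (J x) q
  rw [← hk] at gk
  have hxm : L x m = (Tx L J q)⁻¹ x := by rw [hm, apply_inv', h.Tx_inv]
  have hqk : L q k = (Tx L J x)⁻¹ q := by rw [hk, apply_inv', h.Tx_inv]
  have gkx : L x * Rt L J k = Rt L J k * L x := by
    have h1 := gk.1
    rw [h.ipL hK] at h1
    calc L x * Rt L J k = L x * (Rt L J k * (L x)⁻¹) * L x := by group
      _ = _ := by rw [← h1]; group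
  have hAk : A k = k := by
    rw [hA]; unfold Aa
    simp only [Perm.mul_apply]
    rw [Perm.inv_eq_iff_eq, ← h.Rt_app k y, ← h.Rt_app k (L x y)]
    have h2 := congrArg (fun p : Perm Q => p y) gkx
    simpa only [Perm.mul_apply] using h2
  have hTA : (Tx L J x)⁻¹ (A q) = L (A q) k := by
    have h1 := h.Tx_cen x A hAG hAe hAx
    have h2 : (Tx L J x)⁻¹ * A = A * (Tx L J x)⁻¹ := by
      rw [inv_mul_eq_iff_eq_mul, ← mul_assoc, h1]; group
    have h3 := congrArg (fun p : Perm Q => p q) h2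
    simp only [Perm.mul_apply] at h3
    rw [h3, ← hqk, h.aut hAG hAe, hAk]
  have hAqx : L (A q) x = L x (L (A q) k) := by
    rw [← hTA, h.Tx_inv', Perm.mul_apply, apply_inv', h.Rt_app]
  have hTq : (Tx L J q)⁻¹ ∈ G := G.inv_mem (h.Tx_mem q)
  have hTqe : (Tx L J q)⁻¹ e = e := by rw [Perm.inv_eq_iff_eq, h.Tx_e]
  have E6 : L X q = L x (A q) := by
    have h1 : L X q = (Tx L J q)⁻¹ (L q X) := by
      unfold Tx
      rw [mul_inv_rev, inv_inv, Perm.mul_apply, inv_apply', h.Rt_app]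
    have h2 : (Tx L J q)⁻¹ (A q) = A q := by rw [Perm.inv_eq_iff_eq, hi]
    rw [h1, E4, h.aut hTq hTqe, h2, ← hxm, ← h.Rt_app (L x m) (A q), gm.2, Perm.mul_apply,
      h.Rt_app x (A q), hAqx]
    have h3 := congrArg (fun p : Perm Q => p (L (A q) k)) gm.1
    simp only [Perm.mul_apply] at h3
    rw [← h3]
    congr 1
    rw [hmk, ← h.Rt_app k (A q), h.ipR hK, inv_apply']
  rw [← hA, ← hB]
  have h9 : L x (A q) = L x (B⁻¹ q) := by rw [← E6, E5]
  exact (L x).injective h9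

theorem T_hom (h : AL0 G L J e) (hK : ∀ a b, Th L J a b b = b) (x y : Q) :
    Tx L J (L x y) = Tx L J x * Tx L J y := by
  rw [h.T_mul hK, h.Aa_sym hK, mul_one]

theorem Tx_conj (h : AL0 G L J e) {g : Perm Q} (hg : g ∈ G) (hge : g e = e) (x : Q) :
    g * Tx L J x * g⁻¹ = Tx L J (g x) := by
  have h1 := h.equi g hg hge x
  have hJ := h.comJ g hg hge
  have hgJ : J (g x) = g (J x) := by
    have := congrArg (fun p : Perm Q => p x) hJ
    simp only [Perm.mul_apply] at this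
    exact this.symm
  have h2 : g * Rt L J x * g⁻¹ = Rt L J (g x) := by
    unfold Rt
    rw [hgJ, ← h.equi g hg hge (J x)]
    have hJi : J * g⁻¹ = g⁻¹ * J := by
      rw [mul_inv_eq_iff_eq_mul, mul_assoc, ← hJ]; group
    calc g * (J * L (J x) * J) * g⁻¹ = (g * J) * L (J x) * (J * g⁻¹) := by group
      _ = J * (g * L (J x) * g⁻¹) * J := by rw [hJ, hJi]; group
  unfold Tx
  rw [← h1, ← h2]; group

end AL0

/-- a simple noncommutative automorphic loop in which `th(a, b)` fixes `b` for all `a`, `b` is a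
group -/
theorem AL.assoc_of_k7 (h : AL G L J e) (hK : ∀ a b, Th L J a b b = b)
    (hnc : ∃ x y, L x y ≠ L y x) : Assoc L := by
  have h0 := h.al0
  have hTe : Tx L J e = 1 := by
    have h1 : L e = 1 := by
      ext y
      have h2 := h0.Rt_app y e
      rw [h0.Rt_e] at h2
      rw [← h2, Perm.one_apply]
    unfold Tx Rt
    rw [h.Je, h1, mul_one, h0.JJ1]; group
  have heq : ∀ g ∈ G, ∀ a b, Tx L J a = Tx L J b → Tx L J (g a) = Tx L J (g b) := by
    intro g hg a b hab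
    obtain ⟨k, hk⟩ : ∃ k, k = (L (g e))⁻¹ * g := ⟨_, rfl⟩
    have hkG : k ∈ G := by rw [hk]; exact G.mul_mem (G.inv_mem (h.memL _)) hg
    have hke : k e = e := by
      rw [hk, Perm.mul_apply, Perm.inv_eq_iff_eq, h.Le]
    have hgk : g = L (g e) * k := by rw [hk]; group
    have hga : ∀ c, Tx L J (g c) = Tx L J (g e) * (k * Tx L J c * k⁻¹) := by
      intro c
      have h1 : g c = L (g e) (k c) := by
        rw [← Perm.mul_apply, ← hgk]
      rw [h1, h0.T_hom hK, h0.Tx_conj hkG hke]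
    rw [hga a, hga b, hab]
  rcases h.prim (fun a b => Tx L J a = Tx L J b)
    ⟨fun _ => rfl, fun hab => hab.symm, fun hab hbc => hab.trans hbc⟩ heq with h1 | h1
  · intro x y z
    apply h1
    rw [h0.T_hom hK, h0.T_hom hK, h0.T_hom hK, h0.T_hom hK, mul_assoc]
  · exfalso
    obtain ⟨x, y, hxy⟩ := hnc
    apply hxy
    have h2 : Tx L J x = 1 := by rw [h1 x e, hTe]
    unfold Tx at h2
    have h3 : L x = Rt L J x := by
      rw [mul_inv_eq_one] at h2; exact h2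
    rw [h3, h0.Rt_app]

end ALoop
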